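import Mathlib
import Pool.Agent.H.MP_23a294_lc.A

set_option autoImplicit false

namespace Pool.Agent.Results.MP_23a294_lc.No

open Set Function Pool.Agent.H.MP_23a294_lc.A
open Cardinal hiding univ

theorem result (G : Type) [Group G] (hG : #G ≤ continuum.{0}) : ∃ 𝒜 : ℕ → Set G,
    {p : G × G × G | p.1 * p.2.1 = p.2.2} ∈ cls 𝒜 2 ∧
    {p : G × G × G | p.1 * p.2.1 = p.2.2} ∈ cls 𝒜 3 := by
  obtain ⟨N⟩ : Nonempty (G ↪ ℕ → Bool) := (le_def _ _).1 (by simpa using hG)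
  obtain ⟨l, hl⟩ := lists G
  obtain ⟨𝒜, -, h⟩ := cls2 l hl N N.injective
  exact ⟨𝒜, h, by simpa [iUnion_const] using (un (ι := ℕ) (fun _ => _) fun _ => h).1⟩

end Pool.Agent.Results.MP_23a294_lc.No
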